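import Pool.Agent.H80.G2.Targets

set_option autoImplicit false

open scoped InnerProductSpace

namespace Pool.Agent.H35.G2

open Pool.Agent.H80.G2

theorem pf_RNG : T_RNG := by
  intro H _ _ _ M h hM hs
  set K : Submodule ℂ H := (LinearMap.range (h : H →ₗ[ℂ] H)).topologicalClosure with hK
  have : CompleteSpace K := (Submodule.isClosed_topologicalClosure _).completeSpace_coe
  have hrange : ∀ z, h z ∈ K := fun z =>
    Submodule.le_topologicalClosure _ (LinearMap.mem_range_self (h : H →ₗ[ℂ] H) z)
  set e : H →L[ℂ] H := K.starProjection with he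
  have hproj : IsStarProjection e := isStarProjection_starProjection
  have hfix : ∀ v, v ∈ K → e v = v := fun v hv => Submodule.starProjection_eq_self_iff.2 hv
  have hmem : ∀ v, e v ∈ K := fun v => Submodule.starProjection_apply_mem K v
  have hinv : ∀ y : H →L[ℂ] H, y * h = h * y → ∀ v ∈ K, y v ∈ K := by
    intro y hy v hv
    have h1 : v ∈ closure ((LinearMap.range (h : H →ₗ[ℂ] H) : Submodule ℂ H) : Set H) := hv
    have h2 : y v ∈ closure ((LinearMap.range (h : H →ₗ[ℂ] H) : Submodule ℂ H) : Set H) := by
      refine map_mem_closure y.continuous h1 ?_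
      rintro _ ⟨z, rfl⟩
      refine ⟨y z, ?_⟩
      have h3 := congrArg (fun w : H →L[ℂ] H => w z) hy
      exact h3.symm
    exact h2
  have heye : ∀ y : H →L[ℂ] H, y * h = h * y → e * y * e = y * e := by
    intro y hy
    ext z
    exact hfix _ (hinv y hy _ (hmem z))
  have hse : star e = e := hproj.isSelfAdjoint.star_eq
  have hcomm : ∀ y : H →L[ℂ] H, y * h = h * y → star y * h = h * star y → y * e = e * y := by
    intro y hy hy'
    have h1 := heye y hy
    have h2 := congrArg star (heye (star y) hy')
    rw [star_mul, star_mul, star_mul, star_star, hse] at h2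
    rw [← h1, mul_assoc]
    exact h2
  refine ⟨e, ⟨?_, hse, hproj.isIdempotentElem.eq⟩, ?_, ?_, hcomm⟩
  · apply mem_of_comm
    intro y hy
    have h1 : y * h = h * y := (hy h hM).symm
    have h2 : star y * h = h * star y := by
      have h3 := congrArg star (hy h hM)
      rw [star_mul, star_mul, hs] at h3
      exact h3
    exact (hcomm y h1 h2).symm
  · ext z
    exact hfix _ (hrange z)
  · intro k hk
    have h1 : ∀ v ∈ K, k v = 0 := by
      intro v hv
      have h2 : v ∈ closure ((LinearMap.range (h : H →ₗ[ℂ] H) : Submodule ℂ H) : Set H) := hv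
      have h3 : k v ∈ closure ({0} : Set H) := by
        refine map_mem_closure k.continuous h2 ?_
        rintro _ ⟨z, rfl⟩
        have h4 := congrArg (fun w : H →L[ℂ] H => w z) hk
        exact h4
      simpa using h3
    ext z
    exact h1 _ (hmem z)

end Pool.Agent.H35.G2
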